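import Mathlib
import Pool.Agent.T2h20.UT.Fin

/-!
# Unitriangular factorisations of length six of `SL(n, ℤ)`

For every `n ≥ 6` each matrix of `SL(n, ℤ)` is a product of six unitriangular integer matrices,
alternately upper, lower, upper, lower, upper, lower: the least `n₀` of the problem is at most `6`.
-/

set_option autoImplicit false

open Matrix

namespace Pool.Agent.Results.MP_efa98f_al.LengthSixFromSix

/-- `U(n, ℤ)`: the upper unitriangular integer matrices. -/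
def U (n : ℕ) : Set (SpecialLinearGroup (Fin n) ℤ) :=
  {A | (∀ i j : Fin n, j < i → A i j = 0) ∧ ∀ i : Fin n, A i i = 1}

/-- `U⁻(n, ℤ)`: the lower unitriangular integer matrices. -/
def Um (n : ℕ) : Set (SpecialLinearGroup (Fin n) ℤ) :=
  {A | (∀ i j : Fin n, i < j → A i j = 0) ∧ ∀ i : Fin n, A i i = 1}

/-- `SL(n, ℤ) = (U U⁻)³` for every `n ≥ 6`. -/
theorem result (n : ℕ) (hn : 6 ≤ n) (A : SpecialLinearGroup (Fin n) ℤ) :
    ∃ u₁ ∈ U n, ∃ l₁ ∈ Um n, ∃ u₂ ∈ U n, ∃ l₂ ∈ Um n, ∃ u₃ ∈ U n, ∃ l₃ ∈ Um n,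
      A = u₁ * l₁ * u₂ * l₂ * u₃ * l₃ := by
  obtain ⟨u1, l1, u2, l2, u3, l3, hu1, hl1, hu2, hl2, hu3, hl3, h⟩ :=
    Pool.Agent.T2h20.UT.main n hn A.1 A.2
  refine ⟨⟨u1, Pool.Agent.T2h20.UT.det_Up hu1⟩, hu1, ⟨l1, Pool.Agent.T2h20.UT.det_Lo hl1⟩, hl1,
    ⟨u2, Pool.Agent.T2h20.UT.det_Up hu2⟩, hu2, ⟨l2, Pool.Agent.T2h20.UT.det_Lo hl2⟩, hl2,
    ⟨u3, Pool.Agent.T2h20.UT.det_Up hu3⟩, hu3, ⟨l3, Pool.Agent.T2h20.UT.det_Lo hl3⟩, hl3, ?_⟩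
  apply Subtype.ext
  simpa using h

end Pool.Agent.Results.MP_efa98f_al.LengthSixFromSix
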